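import Pool.Agent.K1H44.LC.Plan2
import Pool.Agent.K1H4.LC.Fl

/-! # LC-FL2: nearly periodic shifts of `⌊u θ⌋` with a long range (for helper44, project LC)

The proof of the first lemma is that of `Pool.Agent.K1H4.LC.Fl`. -/

set_option autoImplicit false

namespace Pool.Agent.K1H1.LC

open Finset Pool.Agent.K1H44.LC Pool.Agent.K1H4.LC

/-- the first exception -/
lemma core {θ : ℝ} (hθ : Irrational θ) {b : ℕ} (hb1 : 1 ≤ b) (hb4 : nn ((b : ℝ) * θ) < 1 / 4)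
    (hc : ∀ u : ℕ, 1 ≤ u → u ≠ b → nn ((u : ℝ) * θ) ≤ nn ((b : ℝ) * θ) → 3 * b ≤ 2 * u) :
    ∃ (U : ℕ) (a : ℤ), 3 * b ≤ 2 * U ∧ ⌊(b : ℝ) * θ⌋ ≤ a ∧
  (∀ u : ℕ, 1 ≤ u → u < U → ⌊((u + b : ℕ) : ℝ) * θ⌋ = ⌊(u : ℝ) * θ⌋ + a) ∧
  ⌊((U + b : ℕ) : ℝ) * θ⌋ ≠ ⌊(U : ℝ) * θ⌋ + a ∧
  ((∀ u : ℕ, ⌊(u : ℝ) * θ⌋ + a ≤ ⌊((u + b : ℕ) : ℝ) * θ⌋ ∧ ⌊((u + b : ℕ) : ℝ) * θ⌋ ≤ ⌊(u : ℝ) * θ⌋ + a + 1) ∨
   (∀ u : ℕ, ⌊((u + b : ℕ) : ℝ) * θ⌋ ≤ ⌊(u : ℝ) * θ⌋ + a ∧ ⌊(u : ℝ) * θ⌋ + a ≤ ⌊((u + b : ℕ) : ℝ) * θ⌋ + 1)) := by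
  classical
  obtain ⟨a, ha⟩ : ∃ a : ℤ, a = round ((b : ℝ) * θ) := ⟨_, rfl⟩
  obtain ⟨δ, hδ⟩ : ∃ δ : ℝ, δ = (b : ℝ) * θ - a := ⟨_, rfl⟩
  have hδη : |δ| < 1 / 4 := by rw [hδ, ha]; exact hb4
  have hδ0 : δ ≠ 0 := by
    have h := nn_pos hθ hb1
    unfold nn at h
    rw [← ha, ← hδ, abs_pos] at h
    exact h
  have hbθ : (b : ℝ) * θ = a + δ := by rw [hδ]; ring
  have hfl : ∀ u : ℕ, ⌊((u + b : ℕ) : ℝ) * θ⌋ = ⌊(u : ℝ) * θ + δ⌋ + a := by
    intro u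
    rw [← Int.floor_add_intCast]
    congr 1
    push_cast
    linear_combination hbθ
  -- the crossing exists
  have hcr : ∃ u : ℕ, 1 ≤ u ∧ ⌊((u + b : ℕ) : ℝ) * θ⌋ ≠ ⌊(u : ℝ) * θ⌋ + a := by
    by_contra hcon
    push Not at hcon
    have h1 : ∀ n : ℕ, ⌊((1 + n * b : ℕ) : ℝ) * θ⌋ = ⌊θ⌋ + n * a := by
      intro n
      induction n with
      | zero => simp
      | succ n ih =>
        have h2 := hcon (1 + n * b) (by omega)
        have e : 1 + (n + 1) * b = 1 + n * b + b := by ring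
        rw [e, h2, ih]
        push_cast
        ring
    obtain ⟨n, hn⟩ := exists_nat_gt (2 / |δ|)
    have hδp : 0 < |δ| := abs_pos.2 hδ0
    rw [div_lt_iff₀ hδp] at hn
    have h3 := h1 n
    have h4 := Int.floor_le (((1 + n * b : ℕ) : ℝ) * θ)
    have h5 := Int.lt_floor_add_one (((1 + n * b : ℕ) : ℝ) * θ)
    rw [h3] at h4 h5
    have h6 := Int.floor_le θ
    have h7 := Int.lt_floor_add_one θ
    push_cast at h4 h5
    have e1 : (1 + (n : ℝ) * b) * θ = θ + n * a + n * δ := by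
      linear_combination (n : ℝ) * hbθ
    rw [e1] at h4 h5
    have h8 : |(n : ℝ) * δ| < 2 := by
      rw [abs_lt]
      constructor <;> linarith
    rw [abs_mul, abs_of_nonneg (Nat.cast_nonneg n : (0 : ℝ) ≤ n)] at h8
    linarith
  obtain ⟨U, ⟨hU1, hUc⟩, hUmin⟩ : ∃ U : ℕ, (1 ≤ U ∧ ⌊((U + b : ℕ) : ℝ) * θ⌋ ≠ ⌊(U : ℝ) * θ⌋ + a) ∧
      ∀ u : ℕ, 1 ≤ u → u < U → ⌊((u + b : ℕ) : ℝ) * θ⌋ = ⌊(u : ℝ) * θ⌋ + a := by
    refine ⟨Nat.find hcr, Nat.find_spec hcr, fun u h1 h2 => ?_⟩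
    by_contra h
    exact Nat.find_min hcr h2 ⟨h1, h⟩
  -- once `U θ` is within `|δ|` of an integer and `U ≠ b`
  have hfin : ∀ m : ℤ, |(U : ℝ) * θ - m| ≤ |δ| → U ≠ b → 3 * b ≤ 2 * U := by
    intro m hm hne
    refine hc U hU1 hne (((nn_le _ m).trans hm).trans (le_of_eq ?_))
    unfold nn
    rw [← ha, ← hδ]
  have hfa : ⌊(b : ℝ) * θ⌋ ≤ a := by
    rw [← Int.lt_add_one_iff, Int.floor_lt, hbθ]
    push_cast
    have := (abs_lt.1 hδη).2
    linarith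
  have hδb := abs_lt.1 hδη
  rcases lt_or_gt_of_ne hδ0 with hneg | hpos
  · -- `δ < 0`
    have habs : |δ| = -δ := abs_of_neg hneg
    have hfu : ∀ u : ℕ, ⌊(u : ℝ) * θ⌋ - 1 ≤ ⌊(u : ℝ) * θ + δ⌋ ∧ ⌊(u : ℝ) * θ + δ⌋ ≤ ⌊(u : ℝ) * θ⌋ := by
      intro u
      constructor
      · rw [Int.le_floor]
        push_cast
        have := Int.floor_le ((u : ℝ) * θ)
        linarith
      · exact Int.floor_le_floor (by linarith)
    refine ⟨U, a, ?_, hfa, hUmin, hUc, Or.inr fun u => ?_⟩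
    · -- crossing at `U`
      rw [hfl] at hUc
      have h1 : ⌊(U : ℝ) * θ + δ⌋ = ⌊(U : ℝ) * θ⌋ - 1 := by
        have h2 := hfu U
        have h3 : ⌊(U : ℝ) * θ + δ⌋ ≠ ⌊(U : ℝ) * θ⌋ := fun h => hUc (by rw [h])
        omega
      have h2 : (U : ℝ) * θ + δ < ⌊(U : ℝ) * θ⌋ := by
        have h3 := Int.lt_floor_add_one ((U : ℝ) * θ + δ)
        rw [h1] at h3
        push_cast at h3
        linarith
      refine hfin ⌊(U : ℝ) * θ⌋ ?_ ?_
      · have h3 := Int.floor_le ((U : ℝ) * θ)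
        rw [abs_of_nonneg (by linarith), habs]
        linarith
      · rintro rfl
        have h3 : ⌊(U : ℝ) * θ⌋ = a - 1 := by
          rw [Int.floor_eq_iff, hbθ]
          push_cast
          constructor <;> linarith
        rw [h3, hbθ] at h2
        push_cast at h2
        linarith
    · rw [hfl]
      have := hfu u
      omega
  · have habs : |δ| = δ := abs_of_pos hpos
    have hfu : ∀ u : ℕ, ⌊(u : ℝ) * θ⌋ ≤ ⌊(u : ℝ) * θ + δ⌋ ∧ ⌊(u : ℝ) * θ + δ⌋ ≤ ⌊(u : ℝ) * θ⌋ + 1 := by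
      intro u
      constructor
      · exact Int.floor_le_floor (by linarith)
      · rw [← Int.lt_add_one_iff, Int.floor_lt]
        push_cast
        have := Int.lt_floor_add_one ((u : ℝ) * θ)
        linarith
    refine ⟨U, a, ?_, hfa, hUmin, hUc, Or.inl fun u => ?_⟩
    · rw [hfl] at hUc
      have h1 : ⌊(U : ℝ) * θ + δ⌋ = ⌊(U : ℝ) * θ⌋ + 1 := by
        have h2 := hfu U
        have h3 : ⌊(U : ℝ) * θ + δ⌋ ≠ ⌊(U : ℝ) * θ⌋ := fun h => hUc (by rw [h])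
        omega
      have h2 : (⌊(U : ℝ) * θ⌋ : ℝ) + 1 ≤ (U : ℝ) * θ + δ := by
        have h3 := Int.floor_le ((U : ℝ) * θ + δ)
        rw [h1] at h3
        push_cast at h3
        linarith
      refine hfin (⌊(U : ℝ) * θ⌋ + 1) ?_ ?_
      · have h3 := Int.lt_floor_add_one ((U : ℝ) * θ)
        push_cast
        rw [abs_of_nonpos (by linarith), habs]
        linarith
      · rintro rfl
        have h3 : ⌊(U : ℝ) * θ⌋ = a := by
          rw [Int.floor_eq_iff, hbθ]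
          constructor <;> linarith
        rw [h3, hbθ] at h2
        linarith
    · rw [hfl]
      have := hfu u
      omega


lemma nn_inj {θ : ℝ} (hθ : Irrational θ) {u v : ℕ} (hu : 1 ≤ u)
    (h : nn ((u : ℝ) * θ) = nn ((v : ℝ) * θ)) : u = v := by
  unfold nn at h
  by_contra hne
  rcases abs_eq_abs.1 h with h | h
  · have h1 : Irrational (((u : ℤ) - v : ℤ) * θ) := hθ.intCast_mul (by omega)
    refine h1.ne_int (round ((u : ℝ) * θ) - round ((v : ℝ) * θ)) ?_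
    push_cast
    linarith
  · have h1 : Irrational (((u : ℤ) + v : ℤ) * θ) := hθ.intCast_mul (by omega)
    refine h1.ne_int (round ((u : ℝ) * θ) + round ((v : ℝ) * θ)) ?_
    push_cast
    linarith

lemma sgn {d0 d1 : ℝ} (h : |d1| < |d0|) (h1 : d1 ≠ 0) (h2 : |d0| ≤ |d1 - d0|) :
    (0 < d0 ∧ d1 < 0) ∨ (d0 < 0 ∧ 0 < d1) := by
  rcases lt_or_gt_of_ne h1 with s | s
  · rcases abs_cases d0 with ⟨e0, s0⟩ | ⟨e0, s0⟩
    · left
      rw [e0, abs_of_neg s] at h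
      exact ⟨by linarith, s⟩
    · exfalso
      rw [e0, abs_of_neg s] at h
      rw [e0, abs_of_nonneg (by linarith)] at h2
      linarith
  · rcases abs_cases d0 with ⟨e0, s0⟩ | ⟨e0, s0⟩
    · exfalso
      rw [e0, abs_of_pos s] at h
      rw [e0, abs_of_neg (by linarith)] at h2
      linarith
    · right
      exact ⟨s0, s⟩

/-- differences -/
lemma nn_sub {θ : ℝ} {u v : ℕ} (h : u ≤ v) (r s : ℤ) :
    nn (((v - u : ℕ) : ℝ) * θ) ≤ |((v : ℝ) * θ - s) - ((u : ℝ) * θ - r)| := by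
  refine (nn_le _ (s - r)).trans (le_of_eq ?_)
  congr 1
  rw [Nat.cast_sub h]
  push_cast
  ring

/-- three consecutive records -/
lemma three {θ : ℝ} (hθ : Irrational θ) {b0 b1 b2 : ℕ} (h0 : 1 ≤ b0) (h01 : b0 < b1) (h12 : b1 < b2)
    (l1 : nn ((b1 : ℝ) * θ) < nn ((b0 : ℝ) * θ)) (l2 : nn ((b2 : ℝ) * θ) < nn ((b1 : ℝ) * θ))
    (m1 : ∀ u : ℕ, 1 ≤ u → u < b1 → nn ((b0 : ℝ) * θ) ≤ nn ((u : ℝ) * θ))
    (m2 : ∀ u : ℕ, 1 ≤ u → u < b2 → nn ((b1 : ℝ) * θ) ≤ nn ((u : ℝ) * θ)) :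
    3 * b0 ≤ 2 * b1 ∨ 3 * b1 ≤ 2 * b2 := by
  by_contra hcon
  rw [not_or, not_le, not_le] at hcon
  obtain ⟨c1, c2⟩ := hcon
  have p2 := nn_pos hθ (show 1 ≤ b2 by omega)
  have p1 := nn_pos hθ (show 1 ≤ b1 by omega)
  obtain ⟨r0, hr0⟩ : ∃ r : ℤ, r = round ((b0 : ℝ) * θ) := ⟨_, rfl⟩
  obtain ⟨r1, hr1⟩ : ∃ r : ℤ, r = round ((b1 : ℝ) * θ) := ⟨_, rfl⟩
  obtain ⟨r2, hr2⟩ : ∃ r : ℤ, r = round ((b2 : ℝ) * θ) := ⟨_, rfl⟩
  have e0 : nn ((b0 : ℝ) * θ) = |(b0 : ℝ) * θ - r0| := by rw [hr0]; rfl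
  have e1 : nn ((b1 : ℝ) * θ) = |(b1 : ℝ) * θ - r1| := by rw [hr1]; rfl
  have e2 : nn ((b2 : ℝ) * θ) = |(b2 : ℝ) * θ - r2| := by rw [hr2]; rfl
  have a1 := (m1 (b1 - b0) (by omega) (by omega)).trans (nn_sub h01.le r0 r1)
  have a2 := (m2 (b2 - b1) (by omega) (by omega)).trans (nn_sub h12.le r1 r2)
  have a3 := (m1 (b2 - b1) (by omega) (by omega)).trans (nn_sub h12.le r1 r2)
  have hc : b2 - b1 = b0 := by
    by_contra hne
    have key : nn ((b1 : ℝ) * θ) ≤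
        |(b2 : ℝ) * θ - r2 - ((b1 : ℝ) * θ - r1) - ((b0 : ℝ) * θ - r0)| := by
      rcases lt_or_gt_of_ne hne with hlt | hlt
      · refine (m2 (b0 - (b2 - b1)) (by omega) (by omega)).trans ?_
        refine (nn_le _ (r0 - (r2 - r1))).trans (le_of_eq ?_)
        rw [Nat.cast_sub hlt.le, Nat.cast_sub h12.le, ← abs_neg]
        congr 1
        push_cast
        ring
      · refine (m2 ((b2 - b1) - b0) (by omega) (by omega)).trans ?_
        refine (nn_le _ ((r2 - r1) - r0)).trans (le_of_eq ?_)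
        rw [Nat.cast_sub (show b0 ≤ b2 - b1 from le_of_lt hlt), Nat.cast_sub h12.le]
        congr 1
        push_cast
        ring
    rw [e0] at l1 a1 a3
    rw [e1] at l1 l2 p1 a2 key
    rw [e2] at l2 p2
    generalize (b0 : ℝ) * θ - r0 = d0 at *
    generalize (b1 : ℝ) * θ - r1 = d1 at *
    generalize (b2 : ℝ) * θ - r2 = d2 at *
    rcases sgn l1 (abs_pos.1 p1) a1 with ⟨s0, s1⟩ | ⟨s0, s1⟩
    · rcases sgn l2 (abs_pos.1 p2) a2 with ⟨s1', s2⟩ | ⟨s1', s2⟩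
      · linarith
      · rw [abs_of_pos s0, abs_of_neg s1] at l1
        rw [abs_of_neg s1, abs_of_pos s2] at l2
        rw [abs_of_pos s0, abs_of_pos (by linarith)] at a3
        rw [abs_of_neg s1, abs_of_nonneg (by linarith)] at key
        linarith
    · rcases sgn l2 (abs_pos.1 p2) a2 with ⟨s1', s2⟩ | ⟨s1', s2⟩
      · rw [abs_of_neg s0, abs_of_pos s1] at l1
        rw [abs_of_pos s1, abs_of_neg s2] at l2
        rw [abs_of_neg s0, abs_of_neg (by linarith)] at a3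
        rw [abs_of_pos s1, abs_of_nonpos (by linarith)] at key
        linarith
      · linarith
  omega

/-- the next record -/
lemma next {θ : ℝ} (η : ℝ) (hη : 0 < η) : ∃ b : ℕ, 1 ≤ b ∧ nn ((b : ℝ) * θ) < η ∧
    ∀ u : ℕ, 1 ≤ u → nn ((u : ℝ) * θ) < η → b ≤ u := by
  classical
  have hex := exists_b θ η hη
  exact ⟨Nat.find hex, (Nat.find_spec hex).1, (Nat.find_spec hex).2,
    fun u h1 h2 => Nat.find_min' hex ⟨h1, h2⟩⟩

theorem t_FL2 : S_FL2 := by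
  intro θ _ hθ B
  obtain ⟨η, hη, hη4, hηK⟩ := exists_eta hθ B
  obtain ⟨b0, p0, l0, m0⟩ := next (θ := θ) η hη
  obtain ⟨b1, p1, l1, m1⟩ := next (θ := θ) _ (nn_pos hθ p0)
  obtain ⟨b2, p2, l2, m2⟩ := next (θ := θ) _ (nn_pos hθ p1)
  have hB : B ≤ b0 := by
    by_contra h
    have := hηK b0 p0 (by omega)
    linarith
  have h01 : b0 < b1 := by
    have h := m0 b1 p1 (l1.trans l0)
    rcases h.lt_or_eq with h | h
    · exact h
    · rw [h] at l1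
      exact absurd l1 (lt_irrefl _)
  have h12 : b1 < b2 := by
    have h := m1 b2 p2 (l2.trans l1)
    rcases h.lt_or_eq with h | h
    · exact h
    · rw [h] at l2
      exact absurd l2 (lt_irrefl _)
  have t := three hθ p0 h01 h12 l1 l2
    (fun u h1 h2 => by
      by_contra h
      have := m1 u h1 (not_le.1 h)
      omega)
    (fun u h1 h2 => by
      by_contra h
      have := m2 u h1 (not_le.1 h)
      omega)
  rcases t with t | t
  · obtain ⟨U, a, h1, h2, h3, h4, h5⟩ := core hθ p0 (by linarith) (fun u hu hne hle => by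
      have h := m1 u hu (lt_of_le_of_ne hle fun h => hne (nn_inj hθ hu h))
      omega)
    exact ⟨b0, U, a, p0, hB, h1, h2, h3, h4, h5⟩
  · obtain ⟨U, a, h1, h2, h3, h4, h5⟩ := core hθ p1 (by linarith) (fun u hu hne hle => by
      have h := m2 u hu (lt_of_le_of_ne hle fun h => hne (nn_inj hθ hu h))
      omega)
    exact ⟨b1, U, a, p1, by omega, h1, h2, h3, h4, h5⟩

end Pool.Agent.K1H1.LC
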